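import Mathlib
import Pool.Agent.H16.LA.S8.W52.AK.CNT

/-!
# Counting ideals, uniformly in the number field
-/

set_option autoImplicit false

namespace Pool.Agent.W222.UABC

open NumberField IsDedekindDomain Finset Pool.Agent.H691R3 Pool.Agent.W223.AK Pool.Agent.W52.AK

section Primes

variable {K : Type} [Field K] [NumberField K]

theorem exists_prime_mem (v : Pr K) : ∃ p : ℕ, p.Prime ∧ ((p : ℕ) : 𝓞 K) ∈ v.asIdeal := by
  classical
  have hex : ∃ m : ℕ, 0 < m ∧ ((m : ℕ) : 𝓞 K) ∈ v.asIdeal :=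
    ⟨nm v, Nat.pos_of_ne_zero (nm_ne_zero v), Ideal.absNorm_mem v.asIdeal⟩
  set m := Nat.find hex with hm
  obtain ⟨hm0, hmv⟩ := Nat.find_spec hex
  rw [← hm] at hm0 hmv
  have hmin : ∀ k : ℕ, 0 < k → k < m → ((k : ℕ) : 𝓞 K) ∉ v.asIdeal := by
    intro k hk hkm hkv
    exact Nat.find_min hex hkm ⟨hk, hkv⟩
  have hm1 : m ≠ 1 := by
    intro h
    rw [h, Nat.cast_one] at hmv
    exact v.isPrime.ne_top ((Ideal.eq_top_iff_one _).2 hmv)
  refine ⟨m, ?_, hmv⟩
  by_contra hnp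
  obtain ⟨a, b, ha, hb, hab⟩ := (Nat.not_prime_iff_exists_mul_eq (by omega)).1 hnp
  have ha0 : 0 < a := by
    rcases Nat.eq_zero_or_pos a with rfl | h
    · simp at hab; omega
    · exact h
  have hb0 : 0 < b := by
    rcases Nat.eq_zero_or_pos b with rfl | h
    · simp at hab; omega
    · exact h
  rw [← hab, Nat.cast_mul] at hmv
  rcases v.isPrime.mem_or_mem hmv with h | h
  · exact hmin a ha0 ha h
  · exact hmin b hb0 hb h

/-- a rational prime below `v` -/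
noncomputable def pv (v : Pr K) : ℕ := (exists_prime_mem v).choose

theorem pv_prime (v : Pr K) : (pv v).Prime := (exists_prime_mem v).choose_spec.1

theorem pv_mem (v : Pr K) : ((pv v : ℕ) : 𝓞 K) ∈ v.asIdeal := (exists_prime_mem v).choose_spec.2

theorem absNorm_span_nat (p : ℕ) :
    Ideal.absNorm (Ideal.span {((p : ℕ) : 𝓞 K)}) = p ^ Module.finrank ℚ K := by
  rw [Ideal.absNorm_span_singleton]
  have h1 : ((p : ℕ) : 𝓞 K) = algebraMap ℤ (𝓞 K) (p : ℤ) := by simp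
  rw [h1, Algebra.norm_algebraMap, RingOfIntegers.rank, Int.natAbs_pow, Int.natAbs_natCast]

theorem pv_le (v : Pr K) : pv v ≤ nm v := by
  have h1 : Ideal.absNorm v.asIdeal ∣ Ideal.absNorm (Ideal.span {((pv v : ℕ) : 𝓞 K)}) :=
    Ideal.absNorm_dvd_absNorm_of_le ((Ideal.span_singleton_le_iff_mem _).2 (pv_mem v))
  rw [absNorm_span_nat] at h1
  obtain ⟨k, _, hk⟩ := (Nat.dvd_prime_pow (pv_prime v)).1 h1
  have h2 : nm v = pv v ^ k := hk
  have hk0 : k ≠ 0 := by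
    rintro rfl
    have := two_le_nm v
    rw [h2, pow_zero] at this
    omega
  rw [h2]
  exact Nat.le_self_pow hk0 _

theorem fibre_card (p : ℕ) (s : Finset (Pr K)) (hs : ∀ v ∈ s, pv v = p) :
    s.card ≤ Module.finrank ℚ K := by
  classical
  rcases s.eq_empty_or_nonempty with rfl | ⟨v0, hv0⟩
  · simp
  have hp : p.Prime := hs v0 hv0 ▸ pv_prime v0
  have hinj : Set.InjOn (fun v : Pr K => v.asIdeal) (s : Set (Pr K)) :=
    fun a _ b _ hab => HeightOneSpectrum.ext hab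
  have h1 : (∏ v ∈ s, v.asIdeal) ∣ Ideal.span {((p : ℕ) : 𝓞 K)} := by
    rw [← Finset.prod_image (f := fun I : Ideal (𝓞 K) => I) hinj]
    refine Finset.prod_primes_dvd _ ?_ ?_
    · intro I hI
      obtain ⟨v, _, rfl⟩ := Finset.mem_image.1 hI
      exact v.prime
    · intro I hI
      obtain ⟨v, hv, rfl⟩ := Finset.mem_image.1 hI
      rw [Ideal.dvd_iff_le, Ideal.span_singleton_le_iff_mem, ← hs v hv]
      exact pv_mem v
  have h2 : (∏ v ∈ s, nm v) ∣ p ^ Module.finrank ℚ K := by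
    rw [← absNorm_span_nat (K := K) p]
    have h3 := map_dvd (Ideal.absNorm (S := 𝓞 K)) h1
    rw [map_prod] at h3
    exact h3
  have h3 : ∏ v ∈ s, nm v ≤ p ^ Module.finrank ℚ K :=
    Nat.le_of_dvd (pow_pos hp.pos _) h2
  have h4 : p ^ s.card ≤ ∏ v ∈ s, nm v := by
    rw [← Finset.prod_const]
    exact Finset.prod_le_prod' fun v hv => (hs v hv) ▸ pv_le v
  exact (Nat.pow_le_pow_iff_right hp.one_lt).1 (h4.trans h3)

end Primes

theorem primes_sum (n : ℕ) (x : ℝ) (hx : 1 < x) : ∃ F : ℝ, 0 ≤ F ∧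
    ∀ (K : Type) [Field K] [NumberField K], Module.finrank ℚ K = n →
      ∀ s : Finset (Pr K), ∑ v ∈ s, (nm v : ℝ) ^ (-x) ≤ F := by
  classical
  have hsum : Summable (fun m : ℕ => (m : ℝ) ^ (-x)) := Real.summable_nat_rpow.2 (by linarith)
  refine ⟨n * ∑' m : ℕ, (m : ℝ) ^ (-x), mul_nonneg (Nat.cast_nonneg _)
    (tsum_nonneg fun m => by positivity), ?_⟩
  intro K _ _ hK s
  have h1 : ∑ v ∈ s, (nm v : ℝ) ^ (-x) ≤ ∑ v ∈ s, (pv v : ℝ) ^ (-x) := by
    refine Finset.sum_le_sum fun v _ => ?_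
    have h2 : (0 : ℝ) < pv v := by exact_mod_cast (pv_prime v).pos
    have h3 : (pv v : ℝ) ≤ nm v := by exact_mod_cast pv_le v
    exact Real.rpow_le_rpow_of_nonpos h2 h3 (by linarith)
  refine h1.trans ?_
  rw [Finset.sum_comp (fun m : ℕ => (m : ℝ) ^ (-x)) pv]
  have h2 : ∑ b ∈ s.image pv, (s.filter fun v => pv v = b).card • (b : ℝ) ^ (-x) ≤
      ∑ b ∈ s.image pv, (n : ℝ) * (b : ℝ) ^ (-x) := by
    refine Finset.sum_le_sum fun b _ => ?_
    rw [nsmul_eq_mul]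
    refine mul_le_mul_of_nonneg_right ?_ (by positivity)
    have := fibre_card b (s.filter fun v => pv v = b) (fun v hv => (Finset.mem_filter.1 hv).2)
    rw [hK] at this
    exact_mod_cast this
  refine h2.trans ?_
  rw [← Finset.mul_sum]
  exact mul_le_mul_of_nonneg_left (hsum.sum_le_tsum _ fun m _ => by positivity)
    (Nat.cast_nonneg _)

theorem fw_sum_unif (n : ℕ) {η : ℝ} (hη : 0 < η) : ∃ F0 : ℝ,
    ∀ (K : Type) [Field K] [NumberField K], Module.finrank ℚ K = n →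
      ∀ s : Finset (Pr K × ℕ), ∑ u ∈ s, fw η u ≤ F0 := by
  classical
  obtain ⟨F, hF0, hF⟩ := primes_sum n (1 + η / 2) (by linarith)
  set ρ : ℝ := Real.exp (-(η / 2 * Real.log 2)) with hρ
  have hlog : 0 < Real.log 2 := Real.log_pos (by norm_num)
  have hρ0 : 0 ≤ ρ := (Real.exp_pos _).le
  have hρ1 : ρ < 1 := by
    rw [hρ, Real.exp_lt_one_iff]
    have := mul_pos (half_pos hη) hlog
    linarith
  have hgeo := summable_geometric_of_lt_one hρ0 hρ1
  refine ⟨F * ∑' m : ℕ, ρ ^ m, fun K _ _ hK s => ?_⟩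
  have h0 : ∀ u : Pr K × ℕ, fw η u ≤ (nm u.1 : ℝ) ^ (-(1 + η / 2)) * ρ ^ u.2 := by
    intro u
    unfold fw
    split_ifs with hu
    · positivity
    · rw [Nv_rpow, hρ, ← Real.exp_nat_mul, ← Real.exp_add]
      apply Real.exp_le_exp.2
      have h1 : Real.log 2 ≤ Real.log (Nv u.1) := log_two_le_log_Nv u.1
      have h2 : (1 : ℝ) ≤ u.2 := by
        exact_mod_cast Nat.one_le_iff_ne_zero.2 hu
      have h3 : 0 < Real.log (Nv u.1) := log_Nv_pos u.1
      have h4 : η / 2 * (u.2 * Real.log 2) ≤ η / 2 * (u.2 * Real.log (Nv u.1)) := by gcongr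
      have h5 : η / 2 * (1 * Real.log (Nv u.1)) ≤ η / 2 * (u.2 * Real.log (Nv u.1)) := by gcongr
      nlinarith
  calc ∑ u ∈ s, fw η u
      ≤ ∑ u ∈ s, (nm u.1 : ℝ) ^ (-(1 + η / 2)) * ρ ^ u.2 := Finset.sum_le_sum fun u _ => h0 u
    _ ≤ ∑ u ∈ s.image Prod.fst ×ˢ s.image Prod.snd, (nm u.1 : ℝ) ^ (-(1 + η / 2)) * ρ ^ u.2 := by
        refine Finset.sum_le_sum_of_subset_of_nonneg ?_ (fun u _ _ => by positivity)
        intro u hu
        exact Finset.mem_product.2 ⟨Finset.mem_image_of_mem _ hu, Finset.mem_image_of_mem _ hu⟩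
    _ = (∑ v ∈ s.image Prod.fst, (nm v : ℝ) ^ (-(1 + η / 2))) * ∑ m ∈ s.image Prod.snd, ρ ^ m := by
        rw [Finset.sum_product, Finset.sum_mul_sum]
    _ ≤ F * ∑' m : ℕ, ρ ^ m := by
        refine mul_le_mul (hF K hK _) (hgeo.sum_le_tsum _ fun m _ => pow_nonneg hρ0 m)
          (Finset.sum_nonneg fun m _ => pow_nonneg hρ0 m) hF0

/-- pairs of ideals with small radicals are few, uniformly in the field -/
theorem pairs_card (n : ℕ) {ε : ℝ} (hε : 0 < ε) : ∃ D : ℝ, 0 < D ∧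
    ∀ (K : Type) [Field K] [NumberField K], Module.finrank ℚ K = n →
      ∀ (X c : ℝ) (Q : Finset (Idl K × Idl K)),
        (∀ t ∈ Q, rl t.1 + rl t.2 ≤ c ∧ len t.1 ≤ X ∧ len t.2 ≤ X) →
        (Q.card : ℝ) ≤ D * Real.exp (c + ε * X) := by
  classical
  obtain ⟨F0, hF0⟩ := fw_sum_unif n (half_pos hε)
  refine ⟨Real.exp F0 * Real.exp F0, by positivity, ?_⟩
  intro K _ _ hK X c Q hQ
  set w : Idl K → ℝ := fun a => Real.exp (-(rl a) - ε / 2 * len a) with hw
  have hr : ∀ E : Finset (Idl K), ∑ a ∈ E, w a ≤ Real.exp F0 := by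
    intro E
    have h1 := rankin (fw (ε / 2)) (fw_nonneg (ε / 2)) F0 (hF0 K hK) E
    refine le_trans (le_of_eq ?_) h1
    exact Finset.sum_congr rfl fun a _ => (fw_prod (ε / 2) a).symm
  have hw0 : ∀ a, 0 ≤ w a := fun a => (Real.exp_pos _).le
  have h1 : (Q.card : ℝ) ≤ ∑ t ∈ Q, Real.exp (c + ε * X) * (w t.1 * w t.2) := by
    have h3 : (Q.card : ℝ) = ∑ t ∈ Q, (1 : ℝ) := by simp
    rw [h3]
    refine Finset.sum_le_sum fun t ht => ?_
    obtain ⟨h4, h5, h6⟩ := hQ t ht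
    rw [hw]
    simp only
    rw [← Real.exp_add, ← Real.exp_add]
    apply Real.one_le_exp
    have h7 := mul_le_mul_of_nonneg_left h5 (half_pos hε).le
    have h8 := mul_le_mul_of_nonneg_left h6 (half_pos hε).le
    linarith
  refine h1.trans ?_
  rw [← Finset.mul_sum, mul_comm]
  refine mul_le_mul_of_nonneg_right ?_ (Real.exp_pos _).le
  calc ∑ t ∈ Q, w t.1 * w t.2
      ≤ ∑ t ∈ Q.image Prod.fst ×ˢ Q.image Prod.snd, w t.1 * w t.2 := by
        refine Finset.sum_le_sum_of_subset_of_nonneg ?_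
          (fun t _ _ => mul_nonneg (hw0 _) (hw0 _))
        intro t ht
        exact Finset.mem_product.2 ⟨Finset.mem_image_of_mem _ ht, Finset.mem_image_of_mem _ ht⟩
    _ = (∑ a ∈ Q.image Prod.fst, w a) * ∑ b ∈ Q.image Prod.snd, w b := by
        rw [Finset.sum_product, Finset.sum_mul_sum]
    _ ≤ Real.exp F0 * Real.exp F0 :=
        mul_le_mul (hr _) (hr _) (Finset.sum_nonneg fun b _ => hw0 b) (Real.exp_pos _).le

end Pool.Agent.W222.UABC
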