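import Mathlib
import Pool.Agent.H16.LA.S8.H691R3.PlaceK
import Pool.Agent.H16.LA.S8.W669.VA1b

/-!
# Counting units, uniformly in the number field
-/

set_option autoImplicit false

namespace Pool.Agent.W222.UABC

open NumberField IsDedekindDomain Finset Pool.Agent.H691R3
open HeightOneSpectrum

variable {K : Type} [Field K] [NumberField K]

theorem exists_int_of_fv_le {x : K} (h : ∀ v : HeightOneSpectrum (𝓞 K), fv v x ≤ 1) :
    ∃ a : 𝓞 K, (a : K) = x := by
  refine HeightOneSpectrum.mem_integers_of_valuation_le_one (R := 𝓞 K) K x fun v => ?_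
  have h1 := h v
  have h2 : fv v x = _ := FinitePlace.norm_embedding' (v := v) (x := x)
  rw [h2] at h1
  exact (WithZeroMulInt.toNNReal_le_one_iff (one_lt_absNorm_nnreal v)).1 (by exact_mod_cast h1)

theorem card_infinitePlace_le : Fintype.card (InfinitePlace K) ≤ Module.finrank ℚ K := by
  have h1 := InfinitePlace.card_add_two_mul_card_eq_rank K
  have h2 := InfinitePlace.card_eq_nrRealPlaces_add_nrComplexPlaces (K := K)
  omega

theorem small_card (T : ℝ) (hT : 1 ≤ T) :
    (Set.ncard {a : 𝓞 K | ∀ σ : K →+* ℂ, ‖σ a‖ < T} : ℝ) ≤ (3 * T) ^ Module.finrank ℚ K := by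
  have h := Pool.Agent.W669.VA1b.taskA1b K T hT ⊤ (fun a _ => Submodule.mem_top)
  rwa [finrank_top] at h

theorem small_finite (T : ℝ) : {a : 𝓞 K | ∀ σ : K →+* ℂ, ‖σ a‖ < T}.Finite := by
  have h := Embeddings.finite_of_norm_le K ℂ T
  have h2 : {a : 𝓞 K | ∀ σ : K →+* ℂ, ‖σ a‖ < T} ⊆
      (fun a : 𝓞 K => (a : K)) ⁻¹' {x : K | IsIntegral ℤ x ∧ ∀ φ : K →+* ℂ, ‖φ x‖ ≤ T} := by
    intro a ha
    exact ⟨a.isIntegral_coe, fun φ => (ha φ).le⟩
  exact (h.preimage (RingOfIntegers.coe_injective.injOn)).subset h2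

theorem units_card (n : ℕ) : ∃ D : ℝ, 0 < D ∧
    ∀ (K : Type) [Field K] [NumberField K], Module.finrank ℚ K = n →
      ∀ (X : ℝ) (E : Finset K), 0 ≤ X →
        (∀ y ∈ E, y ≠ 0 ∧ (∀ v : HeightOneSpectrum (𝓞 K), fv v y = 1) ∧
          ∀ w : InfinitePlace K, |Real.log (w y)| ≤ X) →
        (E.card : ℝ) ≤ D * (1 + X) ^ n := by
  classical
  refine ⟨3 ^ n * 9 ^ n, by positivity, ?_⟩
  intro K _ _ hK X E hX hE
  set c0 : ℤ := ⌈X⌉ with hc0
  have hc0' : 0 ≤ c0 := Int.ceil_nonneg hX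
  set M : ℕ := 2 * c0.toNat + 1 with hM
  have hMpos : 0 < M := by omega
  set c : InfinitePlace K → K → Fin M := fun w y =>
    ⟨(⌊Real.log (w y)⌋ + c0).toNat % M, Nat.mod_lt _ hMpos⟩ with hc
  have hlog3 : (1 : ℝ) < Real.log 3 := by
    rw [Real.lt_log_iff_exp_lt (by norm_num)]
    linarith [Real.exp_one_lt_d9]
  have hcol := multi_coloring (Finset.univ : Finset (InfinitePlace K)) (fun _ => M) c
    ((9 : ℝ) ^ n) E ?_
  · have hM3 : (M : ℝ) ≤ 3 * (1 + X) := by
      have h1 : ((c0.toNat : ℕ) : ℝ) = (c0 : ℝ) := by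
        have : ((c0.toNat : ℕ) : ℤ) = c0 := Int.toNat_of_nonneg hc0'
        exact_mod_cast this
      have h2 : (c0 : ℝ) < X + 1 := Int.ceil_lt_add_one X
      rw [hM]
      push_cast
      rw [h1]
      linarith
    have hM1 : (1 : ℝ) ≤ M := by exact_mod_cast hMpos
    have h3 : ∏ _i ∈ (Finset.univ : Finset (InfinitePlace K)), (M : ℝ) ≤ (3 * (1 + X)) ^ n := by
      rw [Finset.prod_const, Finset.card_univ]
      calc (M : ℝ) ^ Fintype.card (InfinitePlace K) ≤ (M : ℝ) ^ n := by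
            refine pow_le_pow_right₀ hM1 ?_
            rw [← hK]
            exact card_infinitePlace_le
        _ ≤ (3 * (1 + X)) ^ n := pow_le_pow_left₀ (by linarith) hM3 n
    calc (E.card : ℝ) ≤ _ := hcol
      _ ≤ (3 * (1 + X)) ^ n * 9 ^ n := mul_le_mul_of_nonneg_right h3 (by positivity)
      _ = 3 ^ n * 9 ^ n * (1 + X) ^ n := by rw [mul_pow]; ring
  · intro G hGE hGcol
    rcases G.eq_empty_or_nonempty with rfl | ⟨y0, hy0⟩
    · simp only [Finset.card_empty, Nat.cast_zero]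
      positivity
    obtain ⟨hy00, hy0v, hy0w⟩ := hE y0 (hGE hy0)
    have hex : ∀ y : K, ∃ a : 𝓞 K, y ∈ G → (a : K) = y / y0 := by
      intro y
      by_cases hy : y ∈ G
      · obtain ⟨hyn, hyv, hyw⟩ := hE y (hGE hy)
        obtain ⟨a, ha⟩ := exists_int_of_fv_le (x := y / y0) (fun v => by
          rw [map_div₀, hyv v, hy0v v, div_one])
        exact ⟨a, fun _ => ha⟩
      · exact ⟨0, fun h => absurd h hy⟩
    choose f hf using hex
    have hinj : Set.InjOn f (G : Set K) := by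
      intro x hx y hy hxy
      have h1 := hf x (Finset.mem_coe.1 hx)
      have h2 := hf y (Finset.mem_coe.1 hy)
      rw [hxy, h2] at h1
      exact ((div_left_inj' hy00).1 h1).symm
    have hsub : ((G.image f : Finset (𝓞 K)) : Set (𝓞 K)) ⊆
        {a : 𝓞 K | ∀ σ : K →+* ℂ, ‖σ a‖ < 3} := by
      intro a ha
      obtain ⟨y, hy, rfl⟩ := Finset.mem_image.1 (Finset.mem_coe.1 ha)
      intro σ
      rw [hf y hy]
      obtain ⟨hyn, hyv, hyw⟩ := hE y (hGE hy)
      set w : InfinitePlace K := InfinitePlace.mk σ with hw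
      have h1 : ‖σ (y / y0)‖ = w (y / y0) := by rw [hw, InfinitePlace.apply]
      rw [h1, map_div₀]
      have hwy : 0 < w y := InfinitePlace.pos_iff.2 hyn
      have hwy0 : 0 < w y0 := InfinitePlace.pos_iff.2 hy00
      have h2 := hGcol w (Finset.mem_univ _) y hy y0 hy0
      rw [hc] at h2
      simp only [Fin.mk.injEq] at h2
      have hb1 := abs_le.1 (hyw w)
      have hb2 := abs_le.1 (hy0w w)
      have key : ∀ z : ℝ, -X ≤ z → z ≤ X → 0 ≤ ⌊z⌋ + c0 ∧ ⌊z⌋ + c0 ≤ 2 * c0 := by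
        intro z hz1 hz2
        have hz3 : ⌊z⌋ ≤ c0 := by
          have h3 : (⌊z⌋ : ℝ) ≤ (c0 : ℝ) := (Int.floor_le z).trans (hz2.trans (Int.le_ceil X))
          exact_mod_cast h3
        have hz4 : -c0 ≤ ⌊z⌋ := by
          rw [Int.le_floor]
          push_cast
          have := Int.le_ceil X
          linarith
        constructor <;> linarith
      have k1 := key _ hb1.1 hb1.2
      have k2 := key _ hb2.1 hb2.2
      have h3 : ⌊Real.log (w y)⌋ = ⌊Real.log (w y0)⌋ := by
        have e1 : (⌊Real.log (w y)⌋ + c0).toNat < M := by omega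
        have e2 : (⌊Real.log (w y0)⌋ + c0).toNat < M := by omega
        rw [Nat.mod_eq_of_lt e1, Nat.mod_eq_of_lt e2] at h2
        omega
      have h4 : Real.log (w y) - Real.log (w y0) < 1 := by
        have h5 := Int.lt_floor_add_one (Real.log (w y))
        have h6 := Int.floor_le (Real.log (w y0))
        rw [h3] at h5
        linarith
      rw [← Real.log_div hwy.ne' hwy0.ne'] at h4
      have h5 : Real.log (w y / w y0) < Real.log 3 := h4.trans hlog3
      exact (Real.log_lt_log_iff (div_pos hwy hwy0) (by norm_num)).1 h5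
    have h1 : (G.card : ℝ) ≤ (Set.ncard {a : 𝓞 K | ∀ σ : K →+* ℂ, ‖σ a‖ < 3} : ℝ) := by
      rw [← Finset.card_image_of_injOn hinj, ← Set.ncard_coe_finset]
      exact_mod_cast Set.ncard_le_ncard hsub (small_finite 3)
    refine h1.trans ((small_card 3 (by norm_num)).trans (le_of_eq ?_))
    rw [hK]
    norm_num

end Pool.Agent.W222.UABC
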