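import Mathlib
import Pool.Agent.H16.LA.S8.W223.AK.Point
import Pool.Agent.H16.LA.S8.W222.UABC.Ideals
import Pool.Agent.H16.LA.S8.W222.UABC.Units

/-!
# Points with small radical over one field, uniformly in the field
-/

set_option autoImplicit false

namespace Pool.Agent.W222.UABC

open NumberField IsDedekindDomain Finset Pool.Agent.H691R3 Pool.Agent.W223.AK

theorem poly_exp (n : ℕ) (a ε : ℝ) (ha : 1 ≤ a) (hε : 0 < ε) : ∃ C : ℝ, 0 < C ∧
    ∀ X : ℝ, 0 ≤ X → (a + 2 * X) ^ n ≤ C * Real.exp (ε * X) := by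
  set δ : ℝ := ε / (n + 1) with hδ
  have hδ0 : 0 < δ := by positivity
  refine ⟨(a * (1 + 2 / δ)) ^ n, by positivity, fun X hX => ?_⟩
  have h1 : a + 2 * X ≤ a * (1 + 2 / δ) * Real.exp (δ * X) := by
    have h2 : 1 + δ * X ≤ Real.exp (δ * X) := by
      have := Real.add_one_le_exp (δ * X)
      linarith
    have h3 : a + 2 * X ≤ a * (1 + 2 / δ) * (1 + δ * X) := by
      have e : a * (1 + 2 / δ) * (1 + δ * X) = a + a * (2 / δ) + a * δ * X + 2 * a * X := by
        field_simp
        ring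
      rw [e]
      have h4 : 0 ≤ a * (2 / δ) := by positivity
      have h5 : 0 ≤ a * δ * X := by positivity
      nlinarith
    exact h3.trans (mul_le_mul_of_nonneg_left h2 (by positivity))
  calc (a + 2 * X) ^ n ≤ (a * (1 + 2 / δ) * Real.exp (δ * X)) ^ n :=
        pow_le_pow_left₀ (by linarith) h1 n
    _ = (a * (1 + 2 / δ)) ^ n * Real.exp (n * (δ * X)) := by rw [mul_pow, ← Real.exp_nat_mul]
    _ ≤ (a * (1 + 2 / δ)) ^ n * Real.exp (ε * X) := by
        refine mul_le_mul_of_nonneg_left (Real.exp_le_exp.2 ?_) (by positivity)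
        have h6 : (n : ℝ) * δ ≤ ε := by
          rw [hδ, mul_div_assoc', div_le_iff₀ (by positivity)]
          nlinarith
        nlinarith [mul_le_mul_of_nonneg_right h6 hX]

section OneField

variable {K : Type} [Field K] [NumberField K]

theorem cS_empty : cS (∅ : Finset (Pr K)) = Module.finrank ℚ K * Real.log 2 := by
  unfold cS
  rw [sum_Spl, Finset.sum_empty, add_zero]
  have h1 : ∀ w : InfinitePlace K, mt (Sum.inl w : Pl K) = (w.mult : ℝ) := fun w => rfl
  simp only [h1]
  rw [← Finset.sum_mul]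
  congr 1
  have := InfinitePlace.sum_mult_eq (K := K)
  exact_mod_cast this

/-- the quotient of two forms -/
noncomputable def quo (p q : Fin 3) (x : K) : K := L p x / L q x

theorem quo_ne {x : K} (hx : Pt x) (p q : Fin 3) : quo p q x ≠ 0 :=
  div_ne_zero (L_ne hx p) (L_ne hx q)

theorem fv_quo {x : K} {P : Fin 3 → Idl K} (hP : IsP ∅ x P) (p q : Fin 3) (v : Pr K) :
    fv v (quo p q x) = (Nv v) ^ (-(P p v : ℤ)) / (Nv v) ^ (-(P q v : ℤ)) := by
  unfold quo
  have hm : (0 : ℝ) < max (fv v x) 1 := lt_max_of_lt_right one_pos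
  rw [map_div₀, hP.val p v (Finset.notMem_empty v), hP.val q v (Finset.notMem_empty v),
    mul_div_mul_left _ _ hm.ne']

theorem log_quo {x : K} (hx : Pt x) {X : ℝ} (hX : ht x ≤ X) (p q : Fin 3) (w : InfinitePlace K) :
    |Real.log (w (quo p q x))| ≤ X + (Module.finrank ℚ K + 2) * Real.log 2 := by
  have hl2 : 0 ≤ Real.log 2 := Real.log_nonneg (by norm_num)
  have hLp := (av (Sum.inl w : Pl K)).pos (L_ne hx p)
  have hLq := (av (Sum.inl w : Pl K)).pos (L_ne hx q)
  have e0 : w (quo p q x) = av (Sum.inl w : Pl K) (L p x) / av (Sum.inl w : Pl K) (L q x) := by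
    show av (Sum.inl w : Pl K) (quo p q x) = _
    unfold quo
    rw [map_div₀]
  have e1 := lm_eq hx (Sum.inl w : Pl K) p
  have e2 := lm_eq hx (Sum.inl w : Pl K) q
  have b1 := lm_le (S := ∅) hx (mem_Spl_inl ∅ w) p
  have b2 := lm_le (S := ∅) hx (mem_Spl_inl ∅ w) q
  have b3 := lm_ge hx (Sum.inl w : Pl K) p
  have b4 := lm_ge hx (Sum.inl w : Pl K) q
  rw [cS_empty] at b1 b2
  have hm1 := one_le_mt (Sum.inl w : Pl K)
  have hm2 := mt_le_two (Sum.inl w : Pl K)
  set m : ℝ := mt (Sum.inl w : Pl K) with hm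
  have hml : m * Real.log 2 ≤ 2 * Real.log 2 := mul_le_mul_of_nonneg_right hm2 hl2
  have e3 : m * Real.log (w (quo p q x)) = lm (Sum.inl w : Pl K) q x - lm (Sum.inl w : Pl K) p x := by
    rw [e0, Real.log_div hLp.ne' hLq.ne', e1, e2]
    ring
  have h1 : |m * Real.log (w (quo p q x))| ≤ X + (Module.finrank ℚ K + 2) * Real.log 2 := by
    rw [e3, abs_le]
    constructor <;> linarith
  rw [abs_mul, abs_of_pos (by linarith : (0 : ℝ) < m)] at h1
  have h2 : 0 ≤ |Real.log (w (quo p q x))| := abs_nonneg _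
  nlinarith

end OneField

theorem per_field (n : ℕ) {ε : ℝ} (hε : 0 < ε) : ∃ D : ℝ, 0 < D ∧
    ∀ (K : Type) [Field K] [NumberField K], Module.finrank ℚ K = n →
      ∀ (X Y : ℝ) (E : Finset K), 0 ≤ X →
        (∀ x ∈ E, Pt x ∧ ht x ≤ X ∧ ∃ P : Fin 3 → Idl K, IsP ∅ x P ∧
          rl (P 0) + rl (P 1) + rl (P 2) ≤ Y) →
        (E.card : ℝ) ≤ D * Real.exp (2 / 3 * Y + ε * X) := by
  classical
  obtain ⟨D1, hD1, h1⟩ := pairs_card n (half_pos hε)
  obtain ⟨D2, hD2, h2⟩ := units_card n
  have hl2 : 0 ≤ Real.log 2 := Real.log_nonneg (by norm_num)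
  set A : ℝ := (n + 2) * Real.log 2 with hA
  have hA0 : 0 ≤ A := by positivity
  obtain ⟨D3, hD3, h3⟩ := poly_exp n (1 + 2 * A) (ε / 2) (by linarith) (half_pos hε)
  set L0 : ℝ := Real.exp (ε / 2 * (n * Real.log 2)) with hL0
  refine ⟨3 * (D2 * D3 * (D1 * L0)), by positivity, ?_⟩
  intro K _ _ hK X Y E hX hE
  have hex : ∀ x : K, ∃ P : Fin 3 → Idl K, x ∈ E → IsP ∅ x P ∧
      rl (P 0) + rl (P 1) + rl (P 2) ≤ Y := by
    intro x
    by_cases hx : x ∈ E
    · obtain ⟨_, _, P, hP⟩ := hE x hx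
      exact ⟨P, fun _ => hP⟩
    · exact ⟨fun _ => 0, fun h => absurd h hx⟩
  choose P hP using hex
  -- the class where the radical with index r is the largest
  have hclass : ∀ p q : Fin 3, p ≠ q → ∀ F : Finset K, F ⊆ E →
      (∀ x ∈ F, rl (P x p) + rl (P x q) ≤ 2 / 3 * Y) →
      (F.card : ℝ) ≤ D2 * D3 * (D1 * L0) * Real.exp (2 / 3 * Y + ε * X) := by
    intro p q hpq F hFE hF
    set π : K → Idl K × Idl K := fun x => (P x p, P x q) with hπ
    have hQ : ((F.image π).card : ℝ) ≤ D1 * Real.exp (2 / 3 * Y + ε / 2 * (X + n * Real.log 2)) := by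
      refine h1 K hK _ _ _ ?_
      intro t ht
      obtain ⟨x, hx, rfl⟩ := Finset.mem_image.1 ht
      obtain ⟨hPt, hht, _⟩ := hE x (hFE hx)
      have hPx := (hP x (hFE hx)).1
      refine ⟨hF x hx, ?_, ?_⟩
      · have := len_le hPt hPx p
        rw [cS_empty, hK] at this
        exact this.trans (by linarith)
      · have := len_le hPt hPx q
        rw [cS_empty, hK] at this
        exact this.trans (by linarith)
    have hfib : ∀ t ∈ F.image π, ((F.filter fun x => π x = t).card : ℝ) ≤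
        D2 * (1 + 2 * A + 2 * X) ^ n := by
      intro t _
      set G := F.filter fun x => π x = t with hG
      rcases G.eq_empty_or_nonempty with hGe | ⟨x0, hx0⟩
      · rw [hGe, Finset.card_empty, Nat.cast_zero]
        positivity
      have hGm : ∀ x ∈ G, x ∈ F ∧ π x = t := fun x hx => Finset.mem_filter.1 hx
      obtain ⟨hx0F, hx0t⟩ := hGm x0 hx0
      obtain ⟨hPt0, hht0, _⟩ := hE x0 (hFE hx0F)
      have hq0 := quo_ne hPt0 p q
      set f : K → K := fun x => quo p q x / quo p q x0 with hf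
      have hinj : Set.InjOn f (G : Set K) := by
        intro x hx y hy hxy
        obtain ⟨hxF, _⟩ := hGm x (Finset.mem_coe.1 hx)
        obtain ⟨hyF, _⟩ := hGm y (Finset.mem_coe.1 hy)
        exact L_quot_inj (hE x (hFE hxF)).1 (hE y (hFE hyF)).1 hpq ((div_left_inj' hq0).1 hxy)
      rw [← Finset.card_image_of_injOn hinj]
      have h4 : 1 + 2 * A + 2 * X = 1 + 2 * (X + A) := by ring
      rw [h4]
      refine h2 K hK _ _ (by positivity) ?_
      intro y hy
      obtain ⟨x, hx, rfl⟩ := Finset.mem_image.1 hy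
      obtain ⟨hxF, hxt⟩ := hGm x hx
      obtain ⟨hPt, hht, _⟩ := hE x (hFE hxF)
      refine ⟨div_ne_zero (quo_ne hPt p q) hq0, ?_, ?_⟩
      · intro v
        rw [hf]
        simp only
        rw [map_div₀, fv_quo (hP x (hFE hxF)).1, fv_quo (hP x0 (hFE hx0F)).1]
        have e1 : P x p = P x0 p := congrArg Prod.fst (hxt.trans hx0t.symm)
        have e2 : P x q = P x0 q := congrArg Prod.snd (hxt.trans hx0t.symm)
        rw [e1, e2]
        have hN : (0 : ℝ) < Nv v := Nv_pos v
        exact div_self (div_ne_zero (zpow_ne_zero _ hN.ne') (zpow_ne_zero _ hN.ne'))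
      · intro w
        rw [hf]
        simp only
        have hw1 : 0 < w (quo p q x) := InfinitePlace.pos_iff.2 (quo_ne hPt p q)
        have hw2 : 0 < w (quo p q x0) := InfinitePlace.pos_iff.2 hq0
        rw [map_div₀, Real.log_div hw1.ne' hw2.ne']
        have b1 := log_quo hPt hht p q w
        have b2 := log_quo hPt0 hht0 p q w
        rw [hK] at b1 b2
        calc |Real.log (w (quo p q x)) - Real.log (w (quo p q x0))|
            ≤ |Real.log (w (quo p q x))| + |Real.log (w (quo p q x0))| := abs_sub _ _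
          _ ≤ 2 * (X + A) := by rw [hA]; linarith
    have hcard : (F.card : ℝ) = ∑ t ∈ F.image π, ((F.filter fun x => π x = t).card : ℝ) := by
      rw [Finset.card_eq_sum_card_image π F]
      push_cast
      rfl
    rw [hcard]
    calc ∑ t ∈ F.image π, ((F.filter fun x => π x = t).card : ℝ)
        ≤ ∑ _t ∈ F.image π, D2 * (1 + 2 * A + 2 * X) ^ n := Finset.sum_le_sum hfib
      _ = ((F.image π).card : ℝ) * (D2 * (1 + 2 * A + 2 * X) ^ n) := by
          rw [Finset.sum_const, nsmul_eq_mul]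
      _ ≤ D1 * Real.exp (2 / 3 * Y + ε / 2 * (X + n * Real.log 2)) *
            (D2 * (D3 * Real.exp (ε / 2 * X))) := by
          refine mul_le_mul hQ (mul_le_mul_of_nonneg_left (h3 X hX) hD2.le) (by positivity)
            (by positivity)
      _ = D2 * D3 * (D1 * L0) * Real.exp (2 / 3 * Y + ε * X) := by
          have e1 : 2 / 3 * Y + ε / 2 * (X + n * Real.log 2) =
              2 / 3 * Y + ε / 2 * X + ε / 2 * (n * Real.log 2) := by ring
          have e2 : 2 / 3 * Y + ε * X = (2 / 3 * Y + ε / 2 * X) + ε / 2 * X := by ring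
          rw [e1, e2, Real.exp_add (2 / 3 * Y + ε / 2 * X), Real.exp_add (2 / 3 * Y + ε / 2 * X), hL0]
          ring
  set F : Fin 3 → Finset K := fun r => E.filter fun x => ∀ l, rl (P x l) ≤ rl (P x r) with hFdef
  have hcov : E ⊆ Finset.univ.biUnion F := by
    intro x hx
    obtain ⟨r, _, hr⟩ := Finset.exists_max_image (Finset.univ : Finset (Fin 3))
      (fun l => rl (P x l)) Finset.univ_nonempty
    exact Finset.mem_biUnion.2 ⟨r, Finset.mem_univ _,
      Finset.mem_filter.2 ⟨hx, fun l => hr l (Finset.mem_univ _)⟩⟩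
  have h0 : (E.card : ℝ) ≤ ∑ r : Fin 3, ((F r).card : ℝ) := by
    have := (Finset.card_le_card hcov).trans Finset.card_biUnion_le
    exact_mod_cast this
  have hb : ∀ r : Fin 3, ((F r).card : ℝ) ≤
      D2 * D3 * (D1 * L0) * Real.exp (2 / 3 * Y + ε * X) := by
    intro r
    have hmem : ∀ x ∈ F r, x ∈ E ∧ ∀ l, rl (P x l) ≤ rl (P x r) :=
      fun x hx => Finset.mem_filter.1 hx
    fin_cases r
    · refine hclass 1 2 (by decide) _ (fun x hx => (hmem x hx).1) fun x hx => ?_
      have a1 := (hmem x hx).2 1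
      have a2 := (hmem x hx).2 2
      have a3 := (hP x (hmem x hx).1).2
      simp only [Fin.zero_eta] at a1 a2
      linarith
    · refine hclass 0 2 (by decide) _ (fun x hx => (hmem x hx).1) fun x hx => ?_
      have a1 := (hmem x hx).2 0
      have a2 := (hmem x hx).2 2
      have a3 := (hP x (hmem x hx).1).2
      simp only [Fin.mk_one] at a1 a2
      linarith
    · refine hclass 0 1 (by decide) _ (fun x hx => (hmem x hx).1) fun x hx => ?_
      have a1 := (hmem x hx).2 0
      have a2 := (hmem x hx).2 1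
      have a3 := (hP x (hmem x hx).1).2
      simp only [Fin.reduceFinMk] at a1 a2
      linarith
  refine h0.trans ((Finset.sum_le_sum fun r _ => hb r).trans (le_of_eq ?_))
  rw [Finset.sum_const, Finset.card_univ, Fintype.card_fin, nsmul_eq_mul]
  push_cast
  ring

end Pool.Agent.W222.UABC
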